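import Pool.Agent.K3h2.LT.Stm

/-! LT brick CNT1 for helper2: counting Lipschitz functions on trees -/

set_option autoImplicit false

open Filter Topology

namespace Pool.Agent.K3h68.LT

open Pool.Agent.K3h2.LT

variable {d n : ℕ}

/-- a function on the tree from the value at the root and the functions on the subtrees -/
def glue (k : ℤ) (gs : Fin d → V d n → ℤ) : V d (n + 1) → ℤ := fun w =>
  match w with
  | ⟨[], _⟩ => k
  | ⟨i :: w', h⟩ => gs i ⟨w', by simpa using h⟩

theorem glue_root (k : ℤ) (gs : Fin d → V d n → ℤ) (h : ([] : List (Fin d)).length ≤ n + 1) :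
    glue k gs ⟨[], h⟩ = k := rfl

theorem sub_glue (k : ℤ) (gs : Fin d → V d n → ℤ) (i : Fin d) : sub (glue k gs) i = gs i := rfl

theorem glue_sub (f : V d (n + 1) → ℤ) : glue (f ⟨[], Nat.zero_le _⟩) (fun i => sub f i) = f := by
  funext ⟨w, h⟩
  rcases w with _ | ⟨i, w⟩
  · rfl
  · rfl

theorem lip_succ (S : Finset ℤ) (f : V d (n + 1) → ℤ) : f ∈ Lip d (n + 1) S ↔
    (∀ i, |sub f i ⟨[], Nat.zero_le _⟩ - f ⟨[], Nat.zero_le _⟩| ≤ 1) ∧
      ∀ i, sub f i ∈ Lip d n S := by
  constructor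
  · rintro ⟨h1, h2⟩
    refine ⟨fun i => h1 [] i (by simp) (by simp), fun i => ⟨?_, ?_⟩⟩
    · intro w j h h'
      exact h1 (i :: w) j (by simpa using h) (by simpa using h')
    · intro w hw
      exact h2 ⟨i :: w.1, by simpa using w.2⟩ (by simpa using hw)
  · rintro ⟨h1, h2⟩
    refine ⟨?_, ?_⟩
    · intro w j h h'
      rcases w with _ | ⟨i, w⟩
      · exact h1 j
      · exact (h2 i).1 w j (by simpa using h) (by simpa using h')
    · rintro ⟨w, hw⟩ hl
      rcases w with _ | ⟨i, w⟩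
      · simp at hl
      · exact (h2 i).2 ⟨w, by simpa using hw⟩ (by simpa using hl)

/-- decomposition at the root -/
def dec (S : Finset ℤ) (k : ℤ) :
    {f : V d (n + 1) → ℤ // f ∈ {f ∈ Lip d (n + 1) S | f ⟨[], Nat.zero_le _⟩ = k}} ≃
      (Fin d → {g : V d n → ℤ // g ∈ {g ∈ Lip d n S | |g ⟨[], Nat.zero_le _⟩ - k| ≤ 1}}) where
  toFun f i := ⟨sub f.1 i, ((lip_succ S f.1).1 f.2.1).2 i, by
    have h := ((lip_succ S f.1).1 f.2.1).1 i
    rwa [f.2.2] at h⟩
  invFun gs := ⟨glue k fun i => (gs i).1, (lip_succ S _).2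
    ⟨fun i => (gs i).2.2, fun i => (gs i).2.1⟩, rfl⟩
  left_inv f := by
    apply Subtype.ext
    have h := glue_sub f.1
    rw [f.2.2] at h
    exact h
  right_inv gs := rfl

theorem near_card (S : Finset ℤ) (hfin : (Lip d n S).Finite) (k : ℤ) :
    {g ∈ Lip d n S | |g ⟨[], Nat.zero_le _⟩ - k| ≤ 1}.ncard =
      {g ∈ Lip d n S | g ⟨[], Nat.zero_le _⟩ = k - 1}.ncard +
      {g ∈ Lip d n S | g ⟨[], Nat.zero_le _⟩ = k}.ncard +
      {g ∈ Lip d n S | g ⟨[], Nat.zero_le _⟩ = k + 1}.ncard := by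
  have hf : ∀ P : (V d n → ℤ) → Prop, {g ∈ Lip d n S | P g}.Finite := fun P =>
    hfin.subset fun g hg => hg.1
  rw [← Set.ncard_union_eq _ (hf _) (hf _), ← Set.ncard_union_eq _ ((hf _).union (hf _)) (hf _)]
  · congr 1
    ext g
    simp only [Set.mem_setOf_eq, Set.mem_union]
    rw [abs_le]
    constructor
    · rintro ⟨h, h1, h2⟩
      have : g ⟨[], Nat.zero_le _⟩ = k - 1 ∨ g ⟨[], Nat.zero_le _⟩ = k ∨
          g ⟨[], Nat.zero_le _⟩ = k + 1 := by omega
      tauto
    · rintro ((⟨h, h1⟩ | ⟨h, h1⟩) | ⟨h, h1⟩) <;> exact ⟨h, by omega, by omega⟩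
  · rw [Set.disjoint_left]
    rintro g (⟨_, h1⟩ | ⟨_, h1⟩) ⟨_, h2⟩ <;> omega
  · rw [Set.disjoint_left]
    rintro g ⟨_, h1⟩ ⟨_, h2⟩
    omega

/-- CNT1 -/
theorem t_CNT1 : S_CNT1 := by
  intro d S hd n
  induction n with
  | zero =>
    have hsub : ∀ w : V d 0, w = ⟨[], Nat.zero_le _⟩ := by
      rintro ⟨w, hw⟩
      have : w = [] := List.eq_nil_of_length_eq_zero (by omega)
      subst this
      rfl
    have hmem : ∀ f : V d 0 → ℤ, f ∈ Lip d 0 S ↔ f ⟨[], Nat.zero_le _⟩ ∈ S := by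
      intro f
      constructor
      · intro h
        exact h.2 _ rfl
      · intro h
        refine ⟨?_, ?_⟩
        · intro w i hw
          simp at hw
        · intro w _
          rw [hsub w]
          exact h
    have hconst : ∀ f : V d 0 → ℤ, f = fun _ => f ⟨[], Nat.zero_le _⟩ := by
      intro f
      funext w
      rw [hsub w]
    refine ⟨?_, fun k => ?_⟩
    · refine ((S : Set ℤ).toFinite.image fun k => (fun _ : V d 0 => k)).subset ?_
      intro f hf
      exact ⟨f ⟨[], Nat.zero_le _⟩, (hmem f).1 hf, (hconst f).symm⟩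
    · rw [Zc]
      split_ifs with hk
      · have : {f ∈ Lip d 0 S | f ⟨[], Nat.zero_le _⟩ = k} = {fun _ => k} := by
          ext f
          simp only [Set.mem_setOf_eq, Set.mem_singleton_iff]
          constructor
          · rintro ⟨_, h⟩
            rw [hconst f, h]
          · rintro rfl
            exact ⟨(hmem _).2 hk, rfl⟩
        rw [this, Set.ncard_singleton]
      · have : {f ∈ Lip d 0 S | f ⟨[], Nat.zero_le _⟩ = k} = ∅ := by
          ext f
          simp only [Set.mem_setOf_eq, Set.mem_empty_iff_false, iff_false]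
          rintro ⟨h1, h2⟩
          exact hk (h2 ▸ (hmem f).1 h1)
        rw [this, Set.ncard_empty]
  | succ n ih =>
    obtain ⟨hfin, hcard⟩ := ih
    refine ⟨?_, fun k => ?_⟩
    · have : Finite (Lip d n S) := hfin
      have hinj : Function.Injective (fun f : Lip d (n + 1) S =>
          ((⟨sub f.1 ⟨0, hd⟩ ⟨[], Nat.zero_le _⟩ - f.1 ⟨[], Nat.zero_le _⟩, by
              have := ((lip_succ S f.1).1 f.2).1 ⟨0, hd⟩
              rw [abs_le] at this
              exact Set.mem_Icc.2 this⟩,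
            fun i => ⟨sub f.1 i, ((lip_succ S f.1).1 f.2).2 i⟩) :
            Set.Icc (-1 : ℤ) 1 × (Fin d → Lip d n S))) := by
        intro f f' h
        simp only [Prod.mk.injEq, Subtype.mk.injEq] at h
        obtain ⟨h1, h2⟩ := h
        have h3 : ∀ i, sub f.1 i = sub f'.1 i := fun i => congrArg Subtype.val (congrFun h2 i)
        apply Subtype.ext
        rw [← glue_sub f.1, ← glue_sub f'.1]
        have h4 : f.1 ⟨[], Nat.zero_le _⟩ = f'.1 ⟨[], Nat.zero_le _⟩ := by
          rw [h3] at h1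
          omega
        rw [h4]
        congr 1
        funext i
        exact h3 i
      exact Set.finite_coe_iff.1 (Finite.of_injective _ hinj)
    · rw [Zc]
      have h1 : {f ∈ Lip d (n + 1) S | f ⟨[], Nat.zero_le _⟩ = k}.ncard =
          {g ∈ Lip d n S | |g ⟨[], Nat.zero_le _⟩ - k| ≤ 1}.ncard ^ d := by
        have h2 := Nat.card_congr (dec (d := d) (n := n) S k)
        rw [Nat.card_fun, Nat.card_fin] at h2
        exact h2
      rw [h1, near_card S hfin k, hcard, hcard, hcard]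

end Pool.Agent.K3h68.LT
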